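import Pool.Agent.V8H22.SLA.D2

/-!
# MP_c38bc8_al, Q1: realization of support varieties for Lie superalgebras in odd characteristic

Let `k` be an algebraically closed field of characteristic `p ≥ 3` and `g = g0 ⊕ g1` a finite-dimensional Lie
superalgebra over `k`.  Every nonempty Zariski closed conical subset `W` of the odd nullcone
`{x ∈ g1 : [x,x] = 0}` is the rank variety of a finite-dimensional `g`-supermodule.  Since the cohomological
support variety of a finite-dimensional supermodule coincides with its rank variety (known, see the problem file),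
this answers Q1 affirmatively.

Idea of the proof.  Let `A` be the algebra of polynomial functions on `g1` and `A'` its full dual, a `g0`-module.
The induced modules `P = U(g) ⊗_{U(g0)} A'` carry a differential `D` (a relative Koszul complex), homogeneous for
the grading of `A`.  For a form `F` of degree `d` the functional `γ ↦ γ(F^p)` on the part of degree `dp` is
`g0`-invariant, since `F^p` is killed by all derivations.  The module attached to `F` is the image under `D` of
those elements of degree `dp` on which the functional vanishes.  It is finite-dimensional, and for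
`0 ≠ x ∈ g1` with `[x,x] = 0` it is free over `Λ(x)` if and only if `F(x) ≠ 0`.  Tensor products of such modules
give all closed cones.
-/

set_option autoImplicit false

namespace Pool.Agent.Results.MP_c38bc8_al.RankVarietyRealization

open Pool.Agent.V8H22.SLA

/-- A Lie superalgebra `g0 ⊕ g1` over a field of characteristic different from two: `g0` is a Lie algebra, `g1` is
a `g0`-module (the bracket of an even and an odd element), `br x y = [x, y]` is the symmetric bilinear
`g0`-equivariant bracket of two odd elements, and `[[x, x], x] = 0` for odd `x`. -/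
structure LieSuper (k g0 g1 : Type) [Field k] [LieRing g0] [LieAlgebra k g0] [AddCommGroup g1] [Module k g1]
    [LieRingModule g0 g1] [LieModule k g0 g1] where
  br : g1 →ₗ[k] g1 →ₗ[k] g0
  symm : ∀ x y, br x y = br y x
  equiv : ∀ (a : g0) (x y : g1), ⁅a, br x y⁆ = br ⁅a, x⁆ y + br x ⁅a, y⁆
  jac : ∀ x, ⁅br x x, x⁆ = 0

variable {k g0 g1 : Type} [Field k] [LieRing g0] [LieAlgebra k g0] [AddCommGroup g1] [Module k g1]
    [LieRingModule g0 g1] [LieModule k g0 g1]

/-- A supermodule with underlying vector space `M`: `par` is the parity involution (its eigenspaces for `1` and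
`-1` are the even and the odd part of `M`), `ev` and `od` are the actions of the even and the odd elements; the
even elements preserve parity, the odd ones reverse it. -/
structure SuperModule (S : LieSuper k g0 g1) (M : Type) [AddCommGroup M] [Module k M] where
  par : M →ₗ[k] M
  ev : g0 →ₗ[k] M →ₗ[k] M
  od : g1 →ₗ[k] M →ₗ[k] M
  par_par : ∀ m, par (par m) = m
  par_ev : ∀ y m, par (ev y m) = ev y (par m)
  par_od : ∀ x m, par (od x m) = -od x (par m)
  ev_lie : ∀ y z m, ev ⁅y, z⁆ m = ev y (ev z m) - ev z (ev y m)
  od_lie : ∀ y x m, od ⁅y, x⁆ m = ev y (od x m) - od x (ev y m)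
  od_br : ∀ x z m, ev (S.br x z) m = od x (od z m) + od z (od x m)

/-- the odd nullcone -/
def LieSuper.nullcone (S : LieSuper k g0 g1) : Set g1 := {x | S.br x x = 0}

/-- `M` is free over `Λ(x) = k[x]/(x²)`: there are elements `e j` of `M` such that the `e j` together with the
`x · e j` form a basis of the vector space `M`. -/
def SuperModule.FreeOver {S : LieSuper k g0 g1} {M : Type} [AddCommGroup M] [Module k M] (T : SuperModule S M)
    (x : g1) : Prop :=
  ∃ (J : Type) (B : Module.Basis (J ⊕ J) k M), ∀ j, B (Sum.inr j) = T.od x (B (Sum.inl j))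

/-- the rank variety: zero together with the nonzero `x` in the odd nullcone such that `M` is not free
over `Λ(x)` -/
def SuperModule.rankVariety {S : LieSuper k g0 g1} {M : Type} [AddCommGroup M] [Module k M]
    (T : SuperModule S M) : Set g1 :=
  {x | x = 0 ∨ (x ∈ S.nullcone ∧ ¬ T.FreeOver x)}

/-- Zariski closed subsets of a finite-dimensional vector space: zero sets of families of polynomials in the
coordinates with respect to a basis -/
def ZariskiClosed (k : Type) {V : Type} [Field k] [AddCommGroup V] [Module k V] (W : Set V) : Prop :=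
  ∃ (n : ℕ) (b : Module.Basis (Fin n) k V) (I : Set (MvPolynomial (Fin n) k)),
    W = {v | ∀ f ∈ I, MvPolynomial.eval (fun i => b.repr v i) f = 0}

/-- **Realization of closed conical subvarieties of the odd nullcone.**  (Neither `g0` nor the Zariski closed
subset is subject to any further restriction; `g1` is finite-dimensional.) -/
theorem result (k : Type) [Field k] [IsAlgClosed k] (p : ℕ) [Fact p.Prime] [CharP k p] (hp : 3 ≤ p)
    (g0 g1 : Type) [LieRing g0] [LieAlgebra k g0] [AddCommGroup g1] [Module k g1] [FiniteDimensional k g1]
    [LieRingModule g0 g1] [LieModule k g0 g1] (S : LieSuper k g0 g1)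
    (W : Set g1) (hN : W ⊆ S.nullcone) (hW : ZariskiClosed k W) (hcone : ∀ (c : k), ∀ x ∈ W, c • x ∈ W)
    (hne : W.Nonempty) :
    ∃ (M : Type) (_ : AddCommGroup M) (_ : Module k M) (_ : FiniteDimensional k M) (T : SuperModule S M),
      T.rankVariety = W := by
  have hk : (2:k) ≠ 0 := by
    intro h
    have h1 : ((2 : ℕ) : k) = 0 := by exact_mod_cast h
    rw [CharP.cast_eq_zero_iff k p 2] at h1
    have := Nat.le_of_dvd (by norm_num) h1
    omega
  have : Infinite k := IsAlgClosed.instInfinite
  obtain ⟨n, b, I, hI⟩ := hW
  obtain ⟨M, i1, i2, i3, T, hT⟩ := realization (k := k) (g := g0) (V := g1)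
    ⟨S.br, S.symm, S.equiv, S.jac⟩ b p hk I W (fun x => by rw [hI]; rfl) hcone hne
  refine ⟨M, i1, i2, i3, ⟨T.par, T.ev, T.od, T.par_par, T.par_ev, T.par_od, T.ev_lie, T.od_lie, T.od_br⟩, ?_⟩
  have h0 : (0 : g1) ∈ W := by
    obtain ⟨x, hx⟩ := hne
    have := hcone 0 x hx
    rwa [zero_smul] at this
  ext x
  constructor
  · rintro (rfl | ⟨hx, hf⟩)
    · exact h0
    · by_cases hx0 : x = 0
      · rw [hx0]; exact h0
      · exact (hT x hx0 hx).1 hf
  · intro hx
    by_cases hx0 : x = 0
    · exact Or.inl hx0
    · exact Or.inr ⟨hN hx, (hT x hx0 (hN hx)).2 hx⟩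

end Pool.Agent.Results.MP_c38bc8_al.RankVarietyRealization
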